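import Pool.Agent.Q189.KConv7

/-! MP_e72e80_gt, Q1 (disproof): the complement in `𝔼⁶ = ℂ³` of the complex quadric cone
`z₁ z₃ = z₂²` is a `3`-convex open set which is not Lefschetz-`3`-convex. -/

set_option autoImplicit false

namespace Pool.Agent.Results.MP_e72e80_gt.QuadricConeComplement

open Pool.Agent.Q189.KConv

theorem result :
    (IsOpen Om ∧ KConvex 3 Om ∧ ¬ LefschetzConvex 3 Om) ∧
    ¬ ∀ k m : ℕ, 2 ≤ k → k + 2 ≤ m → ∀ Ω : Set (E m), IsOpen Ω → KConvex k Ω →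
      LefschetzConvex k Ω := by
  refine ⟨⟨isOpen_Om, Om_kConvex, Om_not_lefschetz⟩, fun h => ?_⟩
  exact Om_not_lefschetz (h 3 6 (by norm_num) (by norm_num) Om isOpen_Om Om_kConvex)

end Pool.Agent.Results.MP_e72e80_gt.QuadricConeComplement
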